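import Mathlib

set_option autoImplicit false

/-!
# All four Berger–Wang-type formulas for minimax joint spectral radii fail

One pair of finite sets of `5 × 5` integer matrices: `𝓑 = {1, T}`, `𝓐` consists of four matrices
which write a letter, in base five, into a register. `T` makes the product vanish exactly when two
consecutive blocks of letters, cut out by `T`, are equal.
-/

namespace Pool.Agent.Results.MP_36f7ac_an.AllFail

open Filter Topology

noncomputable section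

/-- real `N × N` matrices -/
abbrev Mat (N : ℕ) : Type := Matrix (Fin N) (Fin N) ℝ

/-- The product `A_n B_n ⋯ A_1 B_1`. -/
def word {N n : ℕ} (A B : Fin n → Mat N) : Mat N :=
  (List.ofFn fun i : Fin n => A i.rev * B i.rev).prod

/-- The maximum over the tuples from `𝓐` of the minimum over the tuples from `𝓑` of `φ` of the
product. -/
def maxmin {N : ℕ} (φ : Mat N → ℝ) (𝓐 𝓑 : Finset (Mat N)) (n : ℕ) : ℝ :=
  ⨆ A : Fin n → 𝓐, ⨅ B : Fin n → 𝓑, φ (word (fun i => (A i).1) fun i => (B i).1)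

/-- The minimum over the tuples from `𝓑` of the maximum over the tuples from `𝓐` of `φ` of the
product. -/
def minmax {N : ℕ} (φ : Mat N → ℝ) (𝓐 𝓑 : Finset (Mat N)) (n : ℕ) : ℝ :=
  ⨅ B : Fin n → 𝓑, ⨆ A : Fin n → 𝓐, φ (word (fun i => (A i).1) fun i => (B i).1)

/-- The operator norm of a matrix on Euclidean space. -/
def nrm {N : ℕ} (X : Mat N) : ℝ := ‖Matrix.toEuclideanCLM (n := Fin N) (𝕜 := ℝ) X‖

/-- The spectral radius: the largest modulus of a complex eigenvalue. -/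
def rho {N : ℕ} (X : Mat N) : ℝ :=
  sSup {r | ∃ z ∈ spectrum ℂ (X.map (algebraMap ℝ ℂ)), r = ‖z‖}

/-! ## Words -/

theorem word_zero {N : ℕ} (A B : Fin 0 → Mat N) : word A B = 1 := by
  simp [word]

theorem word_succ {N n : ℕ} (A B : Fin (n + 1) → Mat N) :
    word A B = A (Fin.last n) * B (Fin.last n) *
      word (fun i : Fin n => A i.castSucc) (fun i : Fin n => B i.castSucc) := by
  unfold word
  rw [List.ofFn_succ, List.prod_cons]
  simp only [Fin.rev_zero, Fin.rev_succ]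

theorem word_add {N m : ℕ} : ∀ {n : ℕ} (A B : Fin (m + n) → Mat N),
    word A B = word (fun i : Fin n => A (Fin.natAdd m i)) (fun i : Fin n => B (Fin.natAdd m i)) *
      word (fun i : Fin m => A (Fin.castAdd n i)) (fun i : Fin m => B (Fin.castAdd n i))
  | 0, A, B => by
    rw [word_zero, one_mul]
    rfl
  | n + 1, A, B => by
    have h1 : word A B = A (Fin.last (m + n)) * B (Fin.last (m + n)) *
        word (fun i : Fin (m + n) => A i.castSucc) (fun i : Fin (m + n) => B i.castSucc) :=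
      word_succ A B
    rw [h1, word_add, word_succ]
    simp only [mul_assoc]
    rfl

/-! ## The norm -/

theorem nrm_mul {N : ℕ} (X Y : Mat N) : nrm (X * Y) ≤ nrm X * nrm Y := by
  unfold nrm
  rw [map_mul]
  exact norm_mul_le _ _

theorem nrm_nonneg {N : ℕ} (X : Mat N) : 0 ≤ nrm X := norm_nonneg _

theorem entry_le {n : ℕ} (A : Mat n) (j k : Fin n) : |A j k| ≤ nrm A := by
  have h1 := (Matrix.toEuclideanCLM (n := Fin n) (𝕜 := ℝ) A).le_opNorm
    (EuclideanSpace.single k (1 : ℝ))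
  rw [EuclideanSpace.norm_single, norm_one, mul_one] at h1
  refine le_trans ?_ h1
  have h2 : A j k = (Matrix.toEuclideanCLM (n := Fin n) (𝕜 := ℝ) A
      (EuclideanSpace.single k (1 : ℝ))) j := by
    have := congrFun (Matrix.ofLp_toEuclideanCLM A (EuclideanSpace.single k (1 : ℝ))) j
    rw [this]
    simp
  rw [h2, ← Real.norm_eq_abs]
  exact PiLp.norm_apply_le (Matrix.toEuclideanCLM (n := Fin n) (𝕜 := ℝ) A
      (EuclideanSpace.single k (1 : ℝ))) j

/-! ## Finite extrema -/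

theorem fin_bdd {ι : Type} [Finite ι] (f : ι → ℝ) : BddAbove (Set.range f) :=
  (Set.finite_range f).bddAbove

theorem fin_bdd' {ι : Type} [Finite ι] (f : ι → ℝ) : BddBelow (Set.range f) :=
  (Set.finite_range f).bddBelow

theorem maxmin_le {N : ℕ} {φ : Mat N → ℝ} {𝓐 𝓑 : Finset (Mat N)} (hA : 𝓐.Nonempty) {n : ℕ}
    {c : ℝ} (h : ∀ A : Fin n → 𝓐, ∃ B : Fin n → 𝓑,
      φ (word (fun i => (A i).1) fun i => (B i).1) ≤ c) : maxmin φ 𝓐 𝓑 n ≤ c := by
  haveI : Nonempty 𝓐 := hA.to_subtype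
  refine ciSup_le fun A => ?_
  obtain ⟨B, hB⟩ := h A
  exact (ciInf_le (fin_bdd' _) B).trans hB

theorem le_maxmin {N : ℕ} {φ : Mat N → ℝ} {𝓐 𝓑 : Finset (Mat N)} (hB : 𝓑.Nonempty) {n : ℕ}
    {c : ℝ} (A : Fin n → 𝓐) (h : ∀ B : Fin n → 𝓑,
      c ≤ φ (word (fun i => (A i).1) fun i => (B i).1)) : c ≤ maxmin φ 𝓐 𝓑 n := by
  haveI : Nonempty 𝓑 := hB.to_subtype
  exact (le_ciInf h).trans (le_ciSup (f := fun A : Fin n → 𝓐 =>
    ⨅ B : Fin n → 𝓑, φ (word (fun i => (A i).1) fun i => (B i).1)) (fin_bdd _) A)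

theorem exists_maxmin {N : ℕ} (φ : Mat N → ℝ) {𝓐 𝓑 : Finset (Mat N)} (hB : 𝓑.Nonempty) {n : ℕ}
    (A : Fin n → 𝓐) : ∃ B : Fin n → 𝓑,
      φ (word (fun i => (A i).1) fun i => (B i).1) ≤ maxmin φ 𝓐 𝓑 n := by
  haveI : Nonempty 𝓑 := hB.to_subtype
  obtain ⟨B, hB⟩ := exists_eq_ciInf_of_finite (f := fun B : Fin n → 𝓑 =>
    φ (word (fun i => (A i).1) fun i => (B i).1))
  refine ⟨B, ?_⟩
  rw [hB]
  exact le_ciSup (f := fun A : Fin n → 𝓐 =>
    ⨅ B : Fin n → 𝓑, φ (word (fun i => (A i).1) fun i => (B i).1)) (fin_bdd _) A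

theorem exists_minmax {N : ℕ} (φ : Mat N → ℝ) {𝓐 𝓑 : Finset (Mat N)} (hB : 𝓑.Nonempty) (n : ℕ) :
    ∃ B : Fin n → 𝓑, ∀ A : Fin n → 𝓐,
      φ (word (fun i => (A i).1) fun i => (B i).1) ≤ minmax φ 𝓐 𝓑 n := by
  haveI : Nonempty 𝓑 := hB.to_subtype
  obtain ⟨B, hB⟩ := exists_eq_ciInf_of_finite (f := fun B : Fin n → 𝓑 => ⨆ A : Fin n → 𝓐,
    φ (word (fun i => (A i).1) fun i => (B i).1))
  refine ⟨B, fun A => ?_⟩
  unfold minmax
  rw [← hB]
  exact le_ciSup (f := fun A : Fin n → 𝓐 => φ (word (fun i => (A i).1) fun i => (B i).1))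
    (fin_bdd _) A

theorem minmax_le {N : ℕ} {φ : Mat N → ℝ} {𝓐 𝓑 : Finset (Mat N)} (hA : 𝓐.Nonempty) {n : ℕ}
    {c : ℝ} (B : Fin n → 𝓑) (h : ∀ A : Fin n → 𝓐,
      φ (word (fun i => (A i).1) fun i => (B i).1) ≤ c) : minmax φ 𝓐 𝓑 n ≤ c := by
  haveI : Nonempty 𝓐 := hA.to_subtype
  exact (ciInf_le (f := fun B : Fin n → 𝓑 => ⨆ A : Fin n → 𝓐,
    φ (word (fun i => (A i).1) fun i => (B i).1)) (fin_bdd' _) B).trans (ciSup_le h)

theorem le_minmax {N : ℕ} {φ : Mat N → ℝ} {𝓐 𝓑 : Finset (Mat N)} (hB : 𝓑.Nonempty) {n : ℕ}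
    {c : ℝ} (h : ∀ B : Fin n → 𝓑, ∃ A : Fin n → 𝓐,
      c ≤ φ (word (fun i => (A i).1) fun i => (B i).1)) : c ≤ minmax φ 𝓐 𝓑 n := by
  haveI : Nonempty 𝓑 := hB.to_subtype
  refine le_ciInf fun B => ?_
  obtain ⟨A, hA⟩ := h B
  exact hA.trans (le_ciSup (f := fun A : Fin n → 𝓐 =>
    φ (word (fun i => (A i).1) fun i => (B i).1)) (fin_bdd _) A)

/-! ## Submultiplicativity and existence of the limits -/

theorem maxmin_add {N : ℕ} {𝓐 𝓑 : Finset (Mat N)} (hA : 𝓐.Nonempty) (hB : 𝓑.Nonempty) (m n : ℕ) :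
    maxmin nrm 𝓐 𝓑 (m + n) ≤ maxmin nrm 𝓐 𝓑 m * maxmin nrm 𝓐 𝓑 n := by
  refine maxmin_le hA fun A => ?_
  obtain ⟨B₁, h₁⟩ := exists_maxmin nrm hB (fun i : Fin m => A (Fin.castAdd n i))
  obtain ⟨B₂, h₂⟩ := exists_maxmin nrm hB (fun i : Fin n => A (Fin.natAdd m i))
  refine ⟨Fin.append B₁ B₂, ?_⟩
  rw [word_add]
  simp only [Fin.append_left, Fin.append_right]
  refine (nrm_mul _ _).trans ?_
  rw [mul_comm]
  exact mul_le_mul h₁ h₂ (nrm_nonneg _) ((nrm_nonneg _).trans h₁)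

theorem minmax_add {N : ℕ} {𝓐 𝓑 : Finset (Mat N)} (hA : 𝓐.Nonempty) (hB : 𝓑.Nonempty) (m n : ℕ) :
    minmax nrm 𝓐 𝓑 (m + n) ≤ minmax nrm 𝓐 𝓑 m * minmax nrm 𝓐 𝓑 n := by
  haveI : Nonempty 𝓐 := hA.to_subtype
  obtain ⟨B₁, h₁⟩ := exists_minmax (𝓐 := 𝓐) nrm hB m
  obtain ⟨B₂, h₂⟩ := exists_minmax (𝓐 := 𝓐) nrm hB n
  refine minmax_le hA (Fin.append B₁ B₂) fun A => ?_
  rw [word_add]
  simp only [Fin.append_left, Fin.append_right]
  refine (nrm_mul _ _).trans ?_
  rw [mul_comm]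
  have h3 := h₁ (fun i : Fin m => A (Fin.castAdd n i))
  exact mul_le_mul h3 (h₂ fun i : Fin n => A (Fin.natAdd m i)) (nrm_nonneg _)
    ((nrm_nonneg _).trans h3)

theorem fekete {u : ℕ → ℝ} (h1 : ∀ n, 1 ≤ u n) (h2 : ∀ m n, u (m + n) ≤ u m * u n) :
    ∃ L : ℝ, 1 ≤ L ∧ Tendsto (fun n : ℕ => u n ^ (1 / (n : ℝ))) atTop (𝓝 L) := by
  have hpos : ∀ n, 0 < u n := fun n => lt_of_lt_of_le one_pos (h1 n)
  have hsub : Subadditive fun n => Real.log (u n) := by
    intro m n
    rw [← Real.log_mul (hpos m).ne' (hpos n).ne']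
    exact Real.log_le_log (hpos _) (h2 m n)
  have hbdd : BddBelow (Set.range fun n : ℕ => Real.log (u n) / n) := by
    refine ⟨0, ?_⟩
    rintro _ ⟨n, rfl⟩
    exact div_nonneg (Real.log_nonneg (h1 n)) (Nat.cast_nonneg n)
  have hlim := hsub.tendsto_lim hbdd
  refine ⟨Real.exp hsub.lim, ?_, ?_⟩
  · rw [Real.one_le_exp_iff]
    exact ge_of_tendsto' hlim fun n => div_nonneg (Real.log_nonneg (h1 n)) (Nat.cast_nonneg n)
  · have h3 : ∀ n : ℕ, u n ^ (1 / (n : ℝ)) = Real.exp (Real.log (u n) / n) := by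
      intro n
      rw [Real.rpow_def_of_pos (hpos n)]
      congr 1
      ring
    simp only [h3]
    exact (Real.continuous_exp.tendsto _).comp hlim

/-! ## The square-free word -/

/-- the paperfolding letter of `m` -/
def pf (m : ℕ) : ℕ := (m / 2 ^ padicValNat 2 m) % 4

theorem pf_eq (j o : ℕ) (ho : o % 2 = 1) : pf (2 ^ j * o) = o % 4 := by
  unfold pf
  have h1 : padicValNat 2 (2 ^ j * o) = j := by
    rw [padicValNat.mul (by positivity) (by omega), padicValNat.prime_pow,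
      padicValNat.eq_zero_of_not_dvd (by omega), add_zero]
  rw [h1, Nat.mul_div_cancel_left _ (by positivity)]

theorem exists_odd (m : ℕ) (hm : 0 < m) : ∃ j o, o % 2 = 1 ∧ m = 2 ^ j * o := by
  obtain ⟨j, o, ho, h⟩ := Nat.exists_eq_two_pow_mul_odd hm.ne'
  exact ⟨j, o, Nat.odd_iff.1 ho, h⟩

theorem pf_cases (m : ℕ) (hm : 0 < m) : pf m = 1 ∨ pf m = 3 := by
  obtain ⟨j, o, ho, rfl⟩ := exists_odd m hm
  rw [pf_eq j o ho]
  omega

/-- the letters, in `{1, 2, 3, 4}` -/
def ltr (n : ℕ) : ℕ := pf (n + 1) + (n + 1) % 2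

theorem ltr_cases (n : ℕ) : ltr n = 1 ∨ ltr n = 2 ∨ ltr n = 3 ∨ ltr n = 4 := by
  unfold ltr
  have := pf_cases (n + 1) (by omega)
  omega

theorem ltr_eq {m n : ℕ} (h : ltr m = ltr n) :
    (m + 1) % 2 = (n + 1) % 2 ∧ pf (m + 1) = pf (n + 1) := by
  unfold ltr at h
  have := pf_cases (m + 1) (by omega)
  have := pf_cases (n + 1) (by omega)
  omega

theorem square_free (s l : ℕ) (hl : 0 < l) : ∃ i < l, ltr (s + i) ≠ ltr (s + l + i) := by
  by_contra hcon
  push Not at hcon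
  have h0 := (ltr_eq (hcon 0 hl)).1
  obtain ⟨k, o, ho, rfl⟩ := exists_odd l hl
  rcases k with - | k
  · rw [pow_zero, one_mul] at h0
    omega
  · -- a multiple `2 ^ k * odd` in the window
    have hp : 0 < 2 ^ k := by positivity
    obtain ⟨i, hi, o₁, ho₁, hm⟩ : ∃ i < 2 ^ (k + 1), ∃ o₁, o₁ % 2 = 1 ∧ s + i + 1 = 2 ^ k * o₁ := by
      -- the quotient
      set q := (s + 1 + (2 ^ k - 1)) / 2 ^ k with hq
      have e1 := Nat.div_add_mod (s + 1 + (2 ^ k - 1)) (2 ^ k)
      have e2 := Nat.mod_lt (s + 1 + (2 ^ k - 1)) hp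
      rw [← hq] at e1
      have e3 : s + 1 ≤ 2 ^ k * q := by omega
      have e4 : 2 ^ k * q ≤ s + 1 + (2 ^ k - 1) := by omega
      rcases Nat.even_or_odd q with hqe | hqo
      · refine ⟨2 ^ k * (q + 1) - (s + 1), ?_, q + 1, ?_, ?_⟩
        · rw [mul_add, mul_one, pow_succ]
          omega
        · rw [Nat.even_iff] at hqe
          omega
        · rw [mul_add, mul_one]
          omega
      · refine ⟨2 ^ k * q - (s + 1), ?_, q, Nat.odd_iff.1 hqo, ?_⟩
        · rw [pow_succ]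
          omega
        · omega
    have hlt : i < 2 ^ (k + 1) * o := lt_of_lt_of_le hi (Nat.le_mul_of_pos_right _ (by omega))
    have h1 := (ltr_eq (hcon i hlt)).2
    rw [hm] at h1
    have h2 : s + 2 ^ (k + 1) * o + i + 1 = 2 ^ k * (o₁ + 2 * o) := by
      rw [mul_add, ← hm, pow_succ]
      ring
    rw [h2, pf_eq k o₁ ho₁, pf_eq k (o₁ + 2 * o) (by omega)] at h1
    omega

/-! ## Blocks of letters as numbers -/

/-- the letters of positions `s, …, s+k-1`, the last one first -/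
def blockL (s : ℕ) : ℕ → List ℕ
  | 0 => []
  | k + 1 => ltr (s + k) :: blockL s k

/-- the number coded by a block -/
def bv (s k : ℕ) : ℕ := Nat.ofDigits 5 (blockL s k)

theorem bv_zero (s : ℕ) : bv s 0 = 0 := rfl

theorem bv_succ (s k : ℕ) : bv s (k + 1) = ltr (s + k) + 5 * bv s k := by
  unfold bv
  rw [blockL, Nat.ofDigits_cons]

theorem blockL_mem {s k x : ℕ} (h : x ∈ blockL s k) : 1 ≤ x ∧ x ≤ 4 := by
  induction k with
  | zero => simp [blockL] at h
  | succ k ih =>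
    rw [blockL, List.mem_cons] at h
    rcases h with rfl | h
    · have := ltr_cases (s + k)
      omega
    · exact ih h

theorem blockL_length (s k : ℕ) : (blockL s k).length = k := by
  induction k with
  | zero => rfl
  | succ k ih => rw [blockL, List.length_cons, ih]

theorem digits_bv (s k : ℕ) : Nat.digits 5 (bv s k) = blockL s k := by
  refine Nat.digits_ofDigits 5 (by norm_num) _ (fun x hx => ?_) fun h => ?_
  · have := blockL_mem hx
    omega
  · have := blockL_mem (List.getLast_mem h)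
    omega

theorem blockL_eq {s t k : ℕ} (h : blockL s k = blockL t k) : ∀ i < k, ltr (s + i) = ltr (t + i) := by
  induction k with
  | zero =>
    intro i hi
    omega
  | succ k ih =>
    rw [blockL, blockL, List.cons.injEq] at h
    intro i hi
    rcases Nat.lt_succ_iff_lt_or_eq.1 hi with h1 | rfl
    · exact ih h.2 i h1
    · exact h.1

theorem bv_ne (s j k : ℕ) (hk : 0 < k) : bv s j ≠ bv (s + j) k := by
  intro h
  have h1 := congrArg (Nat.digits 5) h
  rw [digits_bv, digits_bv] at h1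
  have h2 := congrArg List.length h1
  rw [blockL_length, blockL_length] at h2
  subst h2
  obtain ⟨i, hi, hne⟩ := square_free s j hk
  exact hne (blockL_eq h1 i hi)

/-! ## The matrices -/

/-- the matrices which write -/
def W (x v : ℝ) : Mat 5 :=
  !![x, v, 0, 0, 0; 0, 1, 0, 0, 0; 0, 0, 1, 0, 0; 0, 0, 0, x, v; 0, 0, 0, 0, 1]

/-- the matrix which compares -/
def T : Mat 5 :=
  !![0, 0, 0, 0, 0; 0, 0, 1, -1, 0; 1, 0, 0, 0, 0; 0, 0, 0, 0, 0; 0, 1, 0, 0, 0]

theorem W_mul (x v y w : ℝ) : W x v * W y w = W (x * y) (x * w + v) := by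
  ext i j
  fin_cases i <;> fin_cases j <;> simp [W, Matrix.mul_apply, Fin.sum_univ_succ]

theorem WT_sq (x v : ℝ) : (W x v * T) * (W x v * T) =
    !![v, -v ^ 2, 0, 0, 0; 1, -v, 0, 0, 0; 0, 0, v, -v, 0; 0, 0, v, -v, 0; 0, 0, 1, -1, 0] := by
  have h1 : W x v * T =
      !![0, 0, v, -v, 0; 0, 0, 1, -1, 0; 1, 0, 0, 0, 0; 0, v, 0, 0, 0; 0, 1, 0, 0, 0] := by
    ext i j
    fin_cases i <;> fin_cases j <;> simp [W, T, Matrix.mul_apply, Fin.sum_univ_succ]
  rw [h1]
  ext i j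
  fin_cases i <;> fin_cases j <;> simp [Matrix.mul_apply, Fin.sum_univ_succ] <;> ring

theorem WT_pow (x v : ℝ) : (W x v * T) ^ 4 = 0 := by
  have h : (W x v * T) ^ 4 = ((W x v * T) * (W x v * T)) * ((W x v * T) * (W x v * T)) := by
    rw [← pow_two, ← pow_two, ← pow_mul]
  rw [h, WT_sq]
  ext i j
  fin_cases i <;> fin_cases j <;> simp [Matrix.mul_apply, Fin.sum_univ_succ] <;> ring

/-- the writing matrices for the letters `1, 2, 3, 4` -/
def letters : Finset (Mat 5) := {W 5 1, W 5 2, W 5 3, W 5 4}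

/-- the set of moves of the second player -/
def moves : Finset (Mat 5) := {1, T}

theorem letters_nonempty : letters.Nonempty := ⟨W 5 1, by simp [letters]⟩

theorem moves_nonempty : moves.Nonempty := ⟨1, by simp [moves]⟩

theorem mem_letters {X : Mat 5} (h : X ∈ letters) : ∃ a : ℝ, X = W 5 a := by
  simp only [letters, Finset.mem_insert, Finset.mem_singleton] at h
  rcases h with rfl | rfl | rfl | rfl <;> exact ⟨_, rfl⟩

theorem ltr_mem (n : ℕ) : W 5 (ltr n) ∈ letters := by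
  have h := ltr_cases n
  simp only [letters, Finset.mem_insert, Finset.mem_singleton]
  rcases h with h | h | h | h <;> rw [h] <;> simp

/-! ## The spectral radius is killed by one tuple -/

theorem rho_nonneg {N : ℕ} (X : Mat N) : 0 ≤ rho X := by
  refine Real.sSup_nonneg ?_
  rintro _ ⟨z, _, rfl⟩
  exact norm_nonneg z

theorem rho_nilp {X : Mat 5} (h : X ^ 4 = 0) : rho X = 0 := by
  refine le_antisymm (Real.sSup_nonpos ?_) (rho_nonneg X)
  rintro _ ⟨z, hz, rfl⟩
  have h1 : (X.map (algebraMap ℝ ℂ)) ^ 4 = 0 := by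
    have : (algebraMap ℝ ℂ).mapMatrix X ^ 4 = 0 := by
      rw [← map_pow, h, map_zero]
    exact this
  have h2 := spectrum.pow_mem_pow (X.map (algebraMap ℝ ℂ)) 4 hz
  rw [h1, spectrum.zero_eq, Set.mem_singleton_iff] at h2
  have : z = 0 := pow_eq_zero_iff (by norm_num) |>.1 h2
  rw [this, norm_zero]

/-- the tuple `(T, 1, …, 1)` -/
def killer (n : ℕ) (i : Fin n) : moves := if (i : ℕ) = 0 then ⟨T, by simp [moves]⟩ else
  ⟨1, by simp [moves]⟩

theorem killer_word : ∀ (n : ℕ) (A : Fin (n + 1) → letters), ∃ x v : ℝ,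
    word (fun i => (A i).1) (fun i => (killer (n + 1) i).1) = W x v * T
  | 0, A => by
    rw [word_succ, word_zero, mul_one]
    obtain ⟨a, ha⟩ := mem_letters (A (Fin.last 0)).2
    refine ⟨5, a, ?_⟩
    rw [ha]
    rfl
  | n + 1, A => by
    rw [word_succ]
    obtain ⟨x, v, h⟩ := killer_word n fun i => A i.castSucc
    have h1 : (fun i : Fin (n + 1) => (killer (n + 1 + 1) i.castSucc).1) =
        fun i => (killer (n + 1) i).1 := by
      funext i
      rfl
    rw [h1, h]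
    have h2 : (killer (n + 1 + 1) (Fin.last (n + 1))).1 = 1 := by
      unfold killer
      rw [if_neg (by simp)]
    rw [h2, mul_one]
    obtain ⟨a, ha⟩ := mem_letters (A (Fin.last (n + 1))).2
    rw [ha, ← mul_assoc, W_mul]
    exact ⟨_, _, rfl⟩

theorem killer_rho {n : ℕ} (hn : 0 < n) (A : Fin n → letters) :
    rho (word (fun i => (A i).1) (fun i => (killer n i).1)) = 0 := by
  obtain ⟨n, rfl⟩ : ∃ k, n = k + 1 := ⟨n - 1, by omega⟩
  obtain ⟨x, v, h⟩ := killer_word n A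
  rw [h]
  exact rho_nilp (WT_pow x v)

theorem maxmin_rho {n : ℕ} (hn : 0 < n) : maxmin rho letters moves n = 0 := by
  refine le_antisymm (maxmin_le letters_nonempty fun A => ⟨killer n, (killer_rho hn A).le⟩) ?_
  haveI : Nonempty letters := letters_nonempty.to_subtype
  obtain ⟨A⟩ : Nonempty (Fin n → letters) := inferInstance
  exact le_maxmin moves_nonempty A fun B => rho_nonneg _

theorem minmax_rho {n : ℕ} (hn : 0 < n) : minmax rho letters moves n = 0 := by
  refine le_antisymm (minmax_le letters_nonempty (killer n) fun A => (killer_rho hn A).le) ?_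
  haveI : Nonempty letters := letters_nonempty.to_subtype
  obtain ⟨A⟩ : Nonempty (Fin n → letters) := inferInstance
  exact le_minmax moves_nonempty fun B => ⟨A, rho_nonneg _⟩

/-! ## The norm is not killed along the square-free word -/

/-- the tuple of the first player -/
def player (n : ℕ) (i : Fin n) : letters := ⟨W 5 (ltr i), ltr_mem i⟩

theorem T_mulVec (v : Fin 5 → ℝ) : T.mulVec v = ![0, v 2 - v 3, v 0, 0, v 1] := by
  funext i
  fin_cases i <;> simp [T, Matrix.mulVec, dotProduct, Fin.sum_univ_succ]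
  ring

theorem W_mulVec (x a : ℝ) (v : Fin 5 → ℝ) : (W x a).mulVec v =
    ![x * v 0 + a * v 1, v 1, v 2, x * v 3 + a * v 4, v 4] := by
  funext i
  fin_cases i <;> simp [W, Matrix.mulVec, dotProduct, Fin.sum_univ_succ]

theorem track : ∀ (n : ℕ) (B : Fin n → moves), ∃ c : ℤ, c ≠ 0 ∧
    ((∃ s k, s + k = n ∧ (word (fun i => (player n i).1) (fun i => (B i).1)).mulVec ![0, 1, 0, 0, 0] =
        ![(c : ℝ) * bv s k, (c : ℝ), 0, 0, 0]) ∨
      ∃ s j k, s + j + k = n ∧ 0 < k ∧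
        (word (fun i => (player n i).1) (fun i => (B i).1)).mulVec ![0, 1, 0, 0, 0] =
        ![0, 0, (c : ℝ) * bv s j, (c : ℝ) * bv (s + j) k, (c : ℝ)])
  | 0, B => by
    refine ⟨1, one_ne_zero, Or.inl ⟨0, 0, rfl, ?_⟩⟩
    rw [word_zero, Matrix.one_mulVec, bv_zero]
    simp
  | n + 1, B => by
    have hw : word (fun i => (player (n + 1) i).1) (fun i => (B i).1) =
        W 5 (ltr n) * (B (Fin.last n)).1 *
          word (fun i => (player n i).1) (fun i : Fin n => (B i.castSucc).1) := word_succ _ _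
    obtain ⟨c, hc, h⟩ := track n fun i => B i.castSucc
    have hB : (B (Fin.last n)).1 = 1 ∨ (B (Fin.last n)).1 = T := by
      have h5 : (B (Fin.last n)).1 ∈ ({1, T} : Finset (Mat 5)) := (B (Fin.last n)).2
      rwa [Finset.mem_insert, Finset.mem_singleton] at h5
    rcases hB with hB | hB
    · -- no comparison
      refine ⟨c, hc, ?_⟩
      rcases h with ⟨s, k, hsk, h⟩ | ⟨s, j, k, hsk, hk, h⟩
      · refine Or.inl ⟨s, k + 1, by omega, ?_⟩
        rw [hw, hB, mul_one, ← Matrix.mulVec_mulVec, h, W_mulVec, bv_succ, hsk]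
        funext i
        fin_cases i <;> simp
        push_cast
        ring
      · refine Or.inr ⟨s, j, k + 1, by omega, by omega, ?_⟩
        rw [hw, hB, mul_one, ← Matrix.mulVec_mulVec, h, W_mulVec, bv_succ (s + j) k, hsk]
        funext i
        fin_cases i <;> simp
        push_cast
        ring
    · rcases h with ⟨s, k, hsk, h⟩ | ⟨s, j, k, hsk, hk, h⟩
      · refine ⟨c, hc, Or.inr ⟨s, k, 1, by omega, by omega, ?_⟩⟩
        rw [hw, hB, ← Matrix.mulVec_mulVec, ← Matrix.mulVec_mulVec, h, T_mulVec, W_mulVec,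
          bv_succ (s + k) 0, bv_zero, hsk]
        funext i
        fin_cases i <;> simp
        ring
      · refine ⟨c * ((bv s j : ℤ) - bv (s + j) k), ?_, Or.inl ⟨n, 1, rfl, ?_⟩⟩
        · refine mul_ne_zero hc (sub_ne_zero.2 ?_)
          exact_mod_cast bv_ne s j k hk
        · rw [hw, hB, ← Matrix.mulVec_mulVec, ← Matrix.mulVec_mulVec, h, T_mulVec, W_mulVec,
            bv_succ n 0, bv_zero]
          funext i
          fin_cases i <;> simp <;> ring

theorem one_le_nrm (n : ℕ) (B : Fin n → moves) :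
    1 ≤ nrm (word (fun i => (player n i).1) (fun i => (B i).1)) := by
  obtain ⟨c, hc, h⟩ := track n B
  set X := word (fun i => (player n i).1) (fun i => (B i).1)
  have hc1 : (1 : ℝ) ≤ |(c : ℝ)| := by
    exact_mod_cast Int.one_le_abs hc
  have hcol : ∀ i, X.mulVec ![0, 1, 0, 0, 0] i = X i 1 := by
    intro i
    simp [Matrix.mulVec, dotProduct, Fin.sum_univ_succ]
  rcases h with ⟨s, k, _, h⟩ | ⟨s, j, k, _, _, h⟩
  · have h1 := congrFun h 1
    rw [hcol] at h1
    have h2 : X 1 1 = c := h1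
    refine hc1.trans ?_
    rw [← h2]
    exact entry_le X 1 1
  · have h1 := congrFun h 4
    rw [hcol] at h1
    have h2 : X 4 1 = c := h1
    refine hc1.trans ?_
    rw [← h2]
    exact entry_le X 4 1

theorem one_le_maxmin (n : ℕ) : 1 ≤ maxmin nrm letters moves n :=
  le_maxmin moves_nonempty (player n) fun B => one_le_nrm n B

theorem one_le_minmax (n : ℕ) : 1 ≤ minmax nrm letters moves n :=
  le_minmax moves_nonempty fun B => ⟨player n, one_le_nrm n B⟩

theorem zero_rpow_ev {u : ℕ → ℝ} (h : ∀ n, 0 < n → u n = 0) :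
    (fun n : ℕ => u n ^ (1 / (n : ℝ))) =ᶠ[atTop] fun _ => 0 := by
  filter_upwards [eventually_gt_atTop 0] with n hn
  rw [h n hn, Real.zero_rpow]
  have : (n : ℝ) ≠ 0 := by exact_mod_cast hn.ne'
  positivity

/-- **Main theorem.** There are finite nonempty sets `𝓐`, `𝓑` of real `5 × 5` matrices for which
the lower and upper minimax joint spectral radii `μ` and `η` exist as limits, and each of them is
strictly larger than both the upper and the lower limit formed with the spectral radius. -/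
theorem result : ∃ (N : ℕ) (𝓐 𝓑 : Finset (Mat N)), 𝓐.Nonempty ∧ 𝓑.Nonempty ∧ ∃ μ η : ℝ,
    Tendsto (fun n : ℕ => maxmin nrm 𝓐 𝓑 n ^ (1 / (n : ℝ))) atTop (𝓝 μ) ∧
    Tendsto (fun n : ℕ => minmax nrm 𝓐 𝓑 n ^ (1 / (n : ℝ))) atTop (𝓝 η) ∧
    limsup (fun n : ℕ => maxmin rho 𝓐 𝓑 n ^ (1 / (n : ℝ))) atTop < μ ∧
    limsup (fun n : ℕ => minmax rho 𝓐 𝓑 n ^ (1 / (n : ℝ))) atTop < η ∧
    liminf (fun n : ℕ => maxmin rho 𝓐 𝓑 n ^ (1 / (n : ℝ))) atTop < μ ∧
    liminf (fun n : ℕ => minmax rho 𝓐 𝓑 n ^ (1 / (n : ℝ))) atTop < η := by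
  obtain ⟨μ, hμ1, hμ⟩ := fekete one_le_maxmin (maxmin_add letters_nonempty moves_nonempty)
  obtain ⟨η, hη1, hη⟩ := fekete one_le_minmax (minmax_add letters_nonempty moves_nonempty)
  refine ⟨5, letters, moves, letters_nonempty, moves_nonempty, μ, η, hμ, hη, ?_, ?_, ?_, ?_⟩
  · rw [limsup_congr (zero_rpow_ev fun n hn => maxmin_rho hn), limsup_const]
    linarith
  · rw [limsup_congr (zero_rpow_ev fun n hn => minmax_rho hn), limsup_const]
    linarith
  · rw [liminf_congr (zero_rpow_ev fun n hn => maxmin_rho hn), liminf_const]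
    linarith
  · rw [liminf_congr (zero_rpow_ev fun n hn => minmax_rho hn), liminf_const]
    linarith

end

end Pool.Agent.Results.MP_36f7ac_an.AllFail
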